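import Pool.Agent.Lib.MP_cfac74_al.Small.Frob

/-!
# MP_cfac74_al, small range: kernel search for groups `C_p : C_r`

`p = r (t - r) + 1` prime and `r` odd: `C_p : C_r` has exactly `t` classes.  Primality of numbers
below `B ^ 2` is tested by one gcd with the product of the odd primes up to `B`.
-/

set_option autoImplicit false
set_option maxRecDepth 100000

namespace Pool.Agent.Lib.MP_cfac74_al.Small

open Pool.Agent.Lib.MP_cfac74_al.Dec

/-- `t` has a witness `r` with respect to `P` -/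
def W (P t : ℕ) : Prop :=
  ∃ r, r % 2 = 1 ∧ 3 ≤ r ∧ r ≤ 185 ∧ Nat.gcd (r * t - (r * r - 1)) P = 1

theorem W_step {P t : ℕ} (r c : ℕ) (n : Bool)
    (hr : r % 2 = 1 ∧ 3 ≤ r ∧ r ≤ 185 ∧ c = r * r - 1) (hn : n = true → W P t)
    (h : @Bool.rec (fun _ => Bool) n true
      (Nat.beq (Nat.gcd (Nat.sub (Nat.mul r t) c) P) (nat_lit 1)) = true) : W P t := by
  obtain ⟨h1, h2, h3, rfl⟩ := hr
  rcases hb : Nat.beq (Nat.gcd (Nat.sub (Nat.mul r t) (r * r - 1)) P) (nat_lit 1) with _ | _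
  · rw [hb] at h
    exact hn h
  · exact ⟨r, h1, h2, h3, Nat.eq_of_beq_eq_true hb⟩

theorem W_false {P t : ℕ} : false = true → W P t := fun h => Bool.noConfusion h

/-- search, part 2 -/
noncomputable def srch2 (P t : Nat) : Bool :=
  @Bool.rec (fun _ => Bool) (@Bool.rec (fun _ => Bool) (@Bool.rec (fun _ => Bool) (@Bool.rec (fun _ => Bool) (@Bool.rec (fun _ => Bool) (@Bool.rec (fun _ => Bool) (@Bool.rec (fun _ => Bool) (@Bool.rec (fun _ => Bool) (@Bool.rec (fun _ => Bool) (@Bool.rec (fun _ => Bool) (@Bool.rec (fun _ => Bool) (@Bool.rec (fun _ => Bool) (@Bool.rec (fun _ => Bool) (@Bool.rec (fun _ => Bool) (@Bool.rec (fun _ => Bool) (@Bool.rec (fun _ => Bool) (@Bool.rec (fun _ => Bool) (@Bool.rec (fun _ => Bool) (@Bool.rec (fun _ => Bool) (@Bool.rec (fun _ => Bool) (@Bool.rec (fun _ => Bool) (@Bool.rec (fun _ => Bool) (@Bool.rec (fun _ => Bool) (@Bool.rec (fun _ => Bool) (@Bool.rec (fun _ => Bool) (@Bool.rec (fun _ => Bool) (@Bool.rec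 (fun _ => Bool) (@Bool.rec (fun _ => Bool) (@Bool.rec (fun _ => Bool) (@Bool.rec (fun _ => Bool) (@Bool.rec (fun _ => Bool) (@Bool.rec (fun _ => Bool) (@Bool.rec (fun _ => Bool) (@Bool.rec (fun _ => Bool) (@Bool.rec (fun _ => Bool) (@Bool.rec (fun _ => Bool) (false) true
    (Nat.beq (Nat.gcd (Nat.sub (Nat.mul (nat_lit 185) t) (nat_lit 34224)) P) (nat_lit 1))) true
    (Nat.beq (Nat.gcd (Nat.sub (Nat.mul (nat_lit 25) t) (nat_lit 624)) P) (nat_lit 1))) true
    (Nat.beq (Nat.gcd (Nat.sub (Nat.mul (nat_lit 23) t) (nat_lit 528)) P) (nat_lit 1))) true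
    (Nat.beq (Nat.gcd (Nat.sub (Nat.mul (nat_lit 183) t) (nat_lit 33488)) P) (nat_lit 1))) true
    (Nat.beq (Nat.gcd (Nat.sub (Nat.mul (nat_lit 131) t) (nat_lit 17160)) P) (nat_lit 1))) true
    (Nat.beq (Nat.gcd (Nat.sub (Nat.mul (nat_lit 115) t) (nat_lit 13224)) P) (nat_lit 1))) true
    (Nat.beq (Nat.gcd (Nat.sub (Nat.mul (nat_lit 43) t) (nat_lit 1848)) P) (nat_lit 1))) true
    (Nat.beq (Nat.gcd (Nat.sub (Nat.mul (nat_lit 101) t) (nat_lit 10200)) P) (nat_lit 1))) true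
    (Nat.beq (Nat.gcd (Nat.sub (Nat.mul (nat_lit 145) t) (nat_lit 21024)) P) (nat_lit 1))) true
    (Nat.beq (Nat.gcd (Nat.sub (Nat.mul (nat_lit 127) t) (nat_lit 16128)) P) (nat_lit 1))) true
    (Nat.beq (Nat.gcd (Nat.sub (Nat.mul (nat_lit 3) t) (nat_lit 8)) P) (nat_lit 1))) true
    (Nat.beq (Nat.gcd (Nat.sub (Nat.mul (nat_lit 31) t) (nat_lit 960)) P) (nat_lit 1))) true
    (Nat.beq (Nat.gcd (Nat.sub (Nat.mul (nat_lit 7) t) (nat_lit 48)) P) (nat_lit 1))) true
    (Nat.beq (Nat.gcd (Nat.sub (Nat.mul (nat_lit 109) t) (nat_lit 11880)) P) (nat_lit 1))) true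
    (Nat.beq (Nat.gcd (Nat.sub (Nat.mul (nat_lit 141) t) (nat_lit 19880)) P) (nat_lit 1))) true
    (Nat.beq (Nat.gcd (Nat.sub (Nat.mul (nat_lit 27) t) (nat_lit 728)) P) (nat_lit 1))) true
    (Nat.beq (Nat.gcd (Nat.sub (Nat.mul (nat_lit 51) t) (nat_lit 2600)) P) (nat_lit 1))) true
    (Nat.beq (Nat.gcd (Nat.sub (Nat.mul (nat_lit 9) t) (nat_lit 80)) P) (nat_lit 1))) true
    (Nat.beq (Nat.gcd (Nat.sub (Nat.mul (nat_lit 19) t) (nat_lit 360)) P) (nat_lit 1))) true
    (Nat.beq (Nat.gcd (Nat.sub (Nat.mul (nat_lit 133) t) (nat_lit 17688)) P) (nat_lit 1))) true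
    (Nat.beq (Nat.gcd (Nat.sub (Nat.mul (nat_lit 125) t) (nat_lit 15624)) P) (nat_lit 1))) true
    (Nat.beq (Nat.gcd (Nat.sub (Nat.mul (nat_lit 161) t) (nat_lit 25920)) P) (nat_lit 1))) true
    (Nat.beq (Nat.gcd (Nat.sub (Nat.mul (nat_lit 71) t) (nat_lit 5040)) P) (nat_lit 1))) true
    (Nat.beq (Nat.gcd (Nat.sub (Nat.mul (nat_lit 165) t) (nat_lit 27224)) P) (nat_lit 1))) true
    (Nat.beq (Nat.gcd (Nat.sub (Nat.mul (nat_lit 29) t) (nat_lit 840)) P) (nat_lit 1))) true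
    (Nat.beq (Nat.gcd (Nat.sub (Nat.mul (nat_lit 153) t) (nat_lit 23408)) P) (nat_lit 1))) true
    (Nat.beq (Nat.gcd (Nat.sub (Nat.mul (nat_lit 139) t) (nat_lit 19320)) P) (nat_lit 1))) true
    (Nat.beq (Nat.gcd (Nat.sub (Nat.mul (nat_lit 119) t) (nat_lit 14160)) P) (nat_lit 1))) true
    (Nat.beq (Nat.gcd (Nat.sub (Nat.mul (nat_lit 169) t) (nat_lit 28560)) P) (nat_lit 1))) true
    (Nat.beq (Nat.gcd (Nat.sub (Nat.mul (nat_lit 77) t) (nat_lit 5928)) P) (nat_lit 1))) true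
    (Nat.beq (Nat.gcd (Nat.sub (Nat.mul (nat_lit 49) t) (nat_lit 2400)) P) (nat_lit 1))) true
    (Nat.beq (Nat.gcd (Nat.sub (Nat.mul (nat_lit 65) t) (nat_lit 4224)) P) (nat_lit 1))) true
    (Nat.beq (Nat.gcd (Nat.sub (Nat.mul (nat_lit 181) t) (nat_lit 32760)) P) (nat_lit 1))) true
    (Nat.beq (Nat.gcd (Nat.sub (Nat.mul (nat_lit 39) t) (nat_lit 1520)) P) (nat_lit 1))) true
    (Nat.beq (Nat.gcd (Nat.sub (Nat.mul (nat_lit 45) t) (nat_lit 2024)) P) (nat_lit 1))) true
    (Nat.beq (Nat.gcd (Nat.sub (Nat.mul (nat_lit 85) t) (nat_lit 7224)) P) (nat_lit 1))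

theorem srch2_spec {P t : ℕ} : srch2 P t = true → W P t :=
  W_step (nat_lit 85) (nat_lit 7224) _ (by decide) (W_step (nat_lit 45) (nat_lit 2024) _ (by decide) (W_step (nat_lit 39) (nat_lit 1520) _ (by decide) (W_step (nat_lit 181) (nat_lit 32760) _ (by decide) (W_step (nat_lit 65) (nat_lit 4224) _ (by decide) (W_step (nat_lit 49) (nat_lit 2400) _ (by decide) (W_step (nat_lit 77) (nat_lit 5928) _ (by decide) (W_step (nat_lit 169) (nat_lit 28560) _ (by decide) (W_step (nat_lit 119) (nat_lit 14160) _ (by decide) (W_step (nat_lit 139) (nat_lit 19320) _ (by decide) (W_step (nat_lit 153) (nat_lit 23408) _ (by decide) (W_step (nat_lit 29) (nat_lit 840) _ (by decide) (W_step (nat_lit 165) (nat_lit 27224) _ (by decide) (W_step (nat_lit 71) (nat_lit 5040) _ (by decide) (W_step (nat_lit 161) (nat_lit 25920) _ (by decide) (W_step (nat_lit 125) (nat_lit 15624) _ (by decide) (W_step (nat_lit 133) (nat_lit 17688) _ (by decide) (W_step (nat_lit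 19) (nat_lit 360) _ (by decide) (W_step (nat_lit 9) (nat_lit 80) _ (by decide) (W_step (nat_lit 51) (nat_lit 2600) _ (by decide) (W_step (nat_lit 27) (nat_lit 728) _ (by decide) (W_step (nat_lit 141) (nat_lit 19880) _ (by decide) (W_step (nat_lit 109) (nat_lit 11880) _ (by decide) (W_step (nat_lit 7) (nat_lit 48) _ (by decide) (W_step (nat_lit 31) (nat_lit 960) _ (by decide) (W_step (nat_lit 3) (nat_lit 8) _ (by decide) (W_step (nat_lit 127) (nat_lit 16128) _ (by decide) (W_step (nat_lit 145) (nat_lit 21024) _ (by decide) (W_step (nat_lit 101) (nat_lit 10200) _ (by decide) (W_step (nat_lit 43) (nat_lit 1848) _ (by decide) (W_step (nat_lit 115) (nat_lit 13224) _ (by decide) (W_step (nat_lit 131) (nat_lit 17160) _ (by decide) (W_step (nat_lit 183) (nat_lit 33488) _ (by decide) (W_step (nat_lit 23) (nat_lit 528) _ (by decide) (W_step (nat_lit 25) (nat_lit 624) _ (by decide) (W_step (nat_lit 185) (nat_lit 34224) _ (by decide) (W_false))))))))))))))))))))))))))))))))))))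

/-- search, part 1 -/
noncomputable def srch1 (P t : Nat) : Bool :=
  @Bool.rec (fun _ => Bool) (@Bool.rec (fun _ => Bool) (@Bool.rec (fun _ => Bool) (@Bool.rec (fun _ => Bool) (@Bool.rec (fun _ => Bool) (@Bool.rec (fun _ => Bool) (@Bool.rec (fun _ => Bool) (@Bool.rec (fun _ => Bool) (srch2 P t) true
    (Nat.beq (Nat.gcd (Nat.sub (Nat.mul (nat_lit 99) t) (nat_lit 9800)) P) (nat_lit 1))) true
    (Nat.beq (Nat.gcd (Nat.sub (Nat.mul (nat_lit 69) t) (nat_lit 4760)) P) (nat_lit 1))) true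
    (Nat.beq (Nat.gcd (Nat.sub (Nat.mul (nat_lit 15) t) (nat_lit 224)) P) (nat_lit 1))) true
    (Nat.beq (Nat.gcd (Nat.sub (Nat.mul (nat_lit 35) t) (nat_lit 1224)) P) (nat_lit 1))) true
    (Nat.beq (Nat.gcd (Nat.sub (Nat.mul (nat_lit 105) t) (nat_lit 11024)) P) (nat_lit 1))) true
    (Nat.beq (Nat.gcd (Nat.sub (Nat.mul (nat_lit 55) t) (nat_lit 3024)) P) (nat_lit 1))) true
    (Nat.beq (Nat.gcd (Nat.sub (Nat.mul (nat_lit 175) t) (nat_lit 30624)) P) (nat_lit 1))) true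
    (Nat.beq (Nat.gcd (Nat.sub (Nat.mul (nat_lit 111) t) (nat_lit 12320)) P) (nat_lit 1))

theorem srch1_spec {P t : ℕ} : srch1 P t = true → W P t :=
  W_step (nat_lit 111) (nat_lit 12320) _ (by decide) (W_step (nat_lit 175) (nat_lit 30624) _ (by decide) (W_step (nat_lit 55) (nat_lit 3024) _ (by decide) (W_step (nat_lit 105) (nat_lit 11024) _ (by decide) (W_step (nat_lit 35) (nat_lit 1224) _ (by decide) (W_step (nat_lit 15) (nat_lit 224) _ (by decide) (W_step (nat_lit 69) (nat_lit 4760) _ (by decide) (W_step (nat_lit 99) (nat_lit 9800) _ (by decide) (srch2_spec))))))))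

/-- search, part 0 -/
noncomputable def srch0 (P t : Nat) : Bool :=
  @Bool.rec (fun _ => Bool) (@Bool.rec (fun _ => Bool) (@Bool.rec (fun _ => Bool) (srch1 P t) true
    (Nat.beq (Nat.gcd (Nat.sub (Nat.mul (nat_lit 91) t) (nat_lit 8280)) P) (nat_lit 1))) true
    (Nat.beq (Nat.gcd (Nat.sub (Nat.mul (nat_lit 21) t) (nat_lit 440)) P) (nat_lit 1))) true
    (Nat.beq (Nat.gcd (Nat.sub (Nat.mul (nat_lit 155) t) (nat_lit 24024)) P) (nat_lit 1))

theorem srch0_spec {P t : ℕ} : srch0 P t = true → W P t :=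
  W_step (nat_lit 155) (nat_lit 24024) _ (by decide) (W_step (nat_lit 21) (nat_lit 440) _ (by decide) (W_step (nat_lit 91) (nat_lit 8280) _ (by decide) (srch1_spec)))

/-- test of one candidate, then go on -/
noncomputable def chk (P Q t : Nat) (nx : Bool) : Bool :=
  @Bool.rec (fun _ => Bool) nx (@Bool.rec (fun _ => Bool) false nx (srch0 P t))
    (Nat.beq (Nat.gcd t Q) (nat_lit 1))

theorem chk_spec {P Q t : ℕ} {nx : Bool} (h : chk P Q t nx = true) :
    nx = true ∧ (Nat.gcd t Q = 1 → W P t) := by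
  unfold chk at h
  rcases hb : Nat.beq (Nat.gcd t Q) (nat_lit 1) with _ | _
  · rw [hb] at h
    refine ⟨h, fun h1 => ?_⟩
    rw [h1] at hb
    exact absurd hb (by decide)
  · rw [hb] at h
    rcases hs : srch0 P t with _ | _
    · rw [hs] at h
      exact Bool.noConfusion h
    · rw [hs] at h
      exact ⟨h, fun _ => srch0_spec hs⟩

/-- the eight candidates of a block of length `30` -/
noncomputable def leaf (P Q : Nat) (a : Nat) : Bool :=
  (chk P Q a (chk P Q (Nat.add a (nat_lit 6)) (chk P Q (Nat.add a (nat_lit 10)) (chk P Q (Nat.add a (nat_lit 12)) (chk P Q (Nat.add a (nat_lit 16)) (chk P Q (Nat.add a (nat_lit 18)) (chk P Q (Nat.add a (nat_lit 22)) (chk P Q (Nat.add a (nat_lit 28)) true))))))))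

/-- the offsets -/
abbrev offs : List ℕ := [0, 6, 10, 12, 16, 18, 22, 28]

theorem leaf_spec {P Q a : ℕ} (h : leaf P Q a = true) (o : ℕ) (ho : o ∈ offs) :
    Nat.gcd (a + o) Q = 1 → W P (a + o) := by
  unfold leaf at h
  obtain ⟨h, h0⟩ := chk_spec h
  obtain ⟨h, h1⟩ := chk_spec h
  obtain ⟨h, h2⟩ := chk_spec h
  obtain ⟨h, h3⟩ := chk_spec h
  obtain ⟨h, h4⟩ := chk_spec h
  obtain ⟨h, h5⟩ := chk_spec h
  obtain ⟨h, h6⟩ := chk_spec h
  obtain ⟨-, h7⟩ := chk_spec h
  simp only [offs, List.mem_cons, List.not_mem_nil, or_false] at ho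
  rcases ho with rfl | rfl | rfl | rfl | rfl | rfl | rfl | rfl
  · exact h0
  · exact h1
  · exact h2
  · exact h3
  · exact h4
  · exact h5
  · exact h6
  · exact h7

/-- binary tree of tests: `f (a + w * i)` for all `i < 2 ^ d` -/
noncomputable def tree (f : Nat → Bool) (w : Nat) (d : Nat) : Nat → Bool :=
  @Nat.rec (fun _ => Nat → Bool) f
    (fun d ih a => @Bool.rec (fun _ => Bool) false
      (ih (Nat.add a (Nat.mul w (Nat.pow (nat_lit 2) d)))) (ih a)) d

theorem tree_spec (f : ℕ → Bool) (w : ℕ) : ∀ (d a : ℕ), tree f w d a = true →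
    ∀ i, i < 2 ^ d → f (a + w * i) = true := by
  intro d
  induction d with
  | zero =>
    intro a h i hi
    have : i = 0 := by simpa using hi
    subst this
    rw [Nat.mul_zero, Nat.add_zero]
    exact h
  | succ d ih =>
    intro a h i hi
    have h' : @Bool.rec (fun _ => Bool) false (tree f w d (a + w * 2 ^ d)) (tree f w d a) = true := h
    rcases hb : tree f w d a with _ | _
    · rw [hb] at h'
      exact Bool.noConfusion h'
    · rw [hb] at h'
      rcases Nat.lt_or_ge i (2 ^ d) with hlt | hge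
      · exact ih a hb i hlt
      · obtain ⟨j, rfl⟩ := Nat.exists_eq_add_of_le hge
        have hj : j < 2 ^ d := by
          rw [pow_succ] at hi; omega
        have := ih _ h' j hj
        rw [Nat.mul_add, ← Nat.add_assoc]
        exact this

/-! ### soundness -/

/-- every odd `d` in `[3, B]` has a common factor with `P` -/
def PSpec (P B : ℕ) : Prop := ∀ d, d % 2 = 1 → 3 ≤ d → d ≤ B → Nat.gcd d P ≠ 1

/-- primes above `n` are coprime to `Q` -/
def QSpec (Q n : ℕ) : Prop := ∀ t, t.Prime → n < t → Nat.gcd t Q = 1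

theorem prime_of_gcd {P B : ℕ} (hP : PSpec P B) {N : ℕ} (h1 : 1 < N) (hodd : N % 2 = 1)
    (hB : N < (B + 1) * (B + 1)) (hg : Nat.gcd N P = 1) : N.Prime := by
  by_contra hnp
  have hq := Nat.minFac_prime (by omega : N ≠ 1)
  have hd := Nat.minFac_dvd N
  have hsq := Nat.minFac_sq_le_self (by omega : 0 < N) hnp
  set q := N.minFac with hqdef
  have hqB : q ≤ B := by
    by_contra hlt
    have h2 : B + 1 ≤ q := by omega
    have h3 : (B + 1) * (B + 1) ≤ q * q := Nat.mul_le_mul h2 h2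
    rw [pow_two] at hsq
    omega
  have hq2 : q % 2 = 1 := by
    rcases hq.eq_two_or_odd with h2 | h2
    · rw [h2] at hd; omega
    · exact h2
  have hq3 : 3 ≤ q := by
    have := hq.two_le; omega
  have h4 : q ∣ P := by
    rcases (Nat.dvd_prime hq).1 (Nat.gcd_dvd_left q P) with h5 | h5
    · exact absurd h5 (hP q hq2 hq3 hqB)
    · rw [← h5]; exact Nat.gcd_dvd_right q P
  have h5 : q ∣ 1 := by
    rw [← hg]; exact Nat.dvd_gcd hd h4
  exact hq.one_lt.ne' (Nat.dvd_one.1 h5)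

theorem good_of_W {P B : ℕ} (hP : PSpec P B) {t : ℕ} (ht : t % 2 = 1) (h200 : 200 ≤ t)
    (hB : 185 * t < (B + 1) * (B + 1)) (h : W P t) : Good t := by
  obtain ⟨r, h1, h2, h3, h4⟩ := h
  obtain ⟨s, rfl⟩ : ∃ s, t = r + s := ⟨t - r, by omega⟩
  have h5 : r * (r + s) - (r * r - 1) = r * s + 1 := by
    have : 1 ≤ r * r := Nat.mul_pos (by omega) (by omega)
    rw [Nat.mul_add]; omega
  rw [h5] at h4
  have h6 : r * s ≤ 185 * s := Nat.mul_le_mul_right s h3
  have h7 : 0 < r * s := Nat.mul_pos (by omega) (by omega)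
  have hs : s % 2 = 0 := by omega
  have h8 : (r * s) % 2 = 0 := by
    rw [Nat.mul_mod, hs, Nat.mul_zero]
  have hp : (r * s + 1).Prime :=
    prime_of_gcd hP (by omega) (by omega) (by omega) h4
  refine Good_of_prime (r := r) (Nat.odd_iff.2 h1) h2 (by omega) ?_
  rwa [Nat.add_sub_cancel_left]

theorem range_good {P B Q n : ℕ} (hP : PSpec P B) (hQ : QSpec Q n) {a d : ℕ} (ha : a % 30 = 1)
    (hn : n < a) (h200 : 200 ≤ a) (hB : 185 * (a + 30 * 2 ^ d) < (B + 1) * (B + 1))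
    (h : tree (leaf P Q) 30 d a = true) :
    ∀ t, t.Prime → a ≤ t → t < a + 30 * 2 ^ d → Good t := by
  intro t ht h1 h2
  have h3 : t % 2 = 1 := by
    rcases ht.eq_two_or_odd with h3 | h3
    · omega
    · exact h3
  have h4 : t % 3 ≠ 0 := fun h4 => by
    have := (Nat.prime_dvd_prime_iff_eq Nat.prime_three ht).1 (Nat.dvd_of_mod_eq_zero h4); omega
  have h5 : t % 5 ≠ 0 := fun h5 => by
    have := (Nat.prime_dvd_prime_iff_eq Nat.prime_five ht).1 (Nat.dvd_of_mod_eq_zero h5); omega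
  have h6 := tree_spec (leaf P Q) 30 d a h ((t - a) / 30) (by omega)
  have h7 : (t - a) % 30 ∈ offs := by
    have e1 : ((t - a) % 30) % 2 = 0 := by omega
    have e2 : ((t - a) % 30) % 3 ≠ 2 := by omega
    have e3 : ((t - a) % 30) % 5 ≠ 4 := by omega
    have e4 : (t - a) % 30 < 30 := Nat.mod_lt _ (by norm_num)
    generalize (t - a) % 30 = y at e1 e2 e3 e4 ⊢
    interval_cases y <;> first | (exfalso; omega) | decide
  have h8 := leaf_spec h6 _ h7
  have h9 : a + 30 * ((t - a) / 30) + (t - a) % 30 = t := by omega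
  rw [h9] at h8
  refine good_of_W hP h3 (by omega) (by omega) (h8 (hQ t ht (by omega)))

/-! ### kernel checks of the specifications -/

/-- factorial -/
noncomputable def fct (k : Nat) : Nat :=
  @Nat.rec (fun _ => Nat) (nat_lit 1) (fun k ih => Nat.mul (Nat.add k (nat_lit 1)) ih) k

theorem fct_eq (k : ℕ) : fct k = k.factorial := by
  induction k with
  | zero => rfl
  | succ k ih =>
    have h : fct (k + 1) = (k + 1) * fct k := rfl
    rw [h, ih, Nat.factorial_succ]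

theorem QSpec_of {Q n : ℕ} (h : Nat.beq (Nat.mod (fct n) Q) 0 = true) : QSpec Q n := by
  intro t ht hn
  have h1 : Q ∣ n.factorial := by
    rw [← fct_eq]; exact Nat.dvd_of_mod_eq_zero (Nat.eq_of_beq_eq_true h)
  rcases (Nat.dvd_prime ht).1 (Nat.gcd_dvd_left t Q) with h2 | h2
  · exact h2
  · exfalso
    have h3 : t ∣ n.factorial := by
      refine dvd_trans ?_ h1
      rw [← h2]; exact Nat.gcd_dvd_right t Q
    have := (Nat.Prime.dvd_factorial ht).1 h3
    omega

/-- one test of `PSpec` -/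
noncomputable def pchk (P d : Nat) : Bool :=
  @Bool.rec (fun _ => Bool) true false (Nat.beq (Nat.gcd d P) (nat_lit 1))

theorem pchk_spec {P d : ℕ} (h : pchk P d = true) : Nat.gcd d P ≠ 1 := by
  intro h1
  unfold pchk at h
  rw [h1] at h
  exact Bool.noConfusion h

theorem ptree_spec {P a d : ℕ} (ha : a % 2 = 1) (h : tree (pchk P) 2 d a = true) (x : ℕ)
    (hx : x % 2 = 1) (h1 : a ≤ x) (h2 : x < a + 2 * 2 ^ d) : Nat.gcd x P ≠ 1 := by
  have h3 := tree_spec (pchk P) 2 d a h ((x - a) / 2) (by omega)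
  have h4 : a + 2 * ((x - a) / 2) = x := by omega
  rw [h4] at h3
  exact pchk_spec h3

end Pool.Agent.Lib.MP_cfac74_al.Small
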