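import Pool.Agent.Lib.MP_cfac74_al.Dec.Frob

/-!
# MP_cfac74_al : Frobenius groups `C_p : C_r`, `p` prime, `r ∣ p - 1` any odd number `≥ 3`
-/

set_option autoImplicit false

namespace Pool.Agent.Lib.MP_cfac74_al.Dec

open Finset

/-- the class number of the Frobenius group (complement of any odd order `r ≥ 3`) -/
theorem Good_frobU (m r : ℕ) (hrodd : Odd r) (hr3 : 3 ≤ r) (hm : Odd m) (hm1 : 1 < m) (x : ZMod m)
    (hx : x ^ r = 1) (hu : ∀ i : ZMod r, i ≠ 0 → IsUnit (x ^ i.val - 1)) (t : ℕ)
    (ht : r * t = m + (r ^ 2 - 1)) : Good t := by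
  classical
  have : NeZero r := ⟨by omega⟩
  have : Fact (1 < r) := ⟨by omega⟩
  have : NeZero m := ⟨by omega⟩
  have hrpos : 0 < r := by omega
  let _ := fgGroup m r x hx
  have hmul : ∀ g h : FG m r, g * h = ⟨g.a + x ^ g.i.val * h.a, g.i + h.i⟩ := fun _ _ => rfl
  let e : FG m r ≃ ZMod m × ZMod r :=
    { toFun := fun g => (g.a, g.i)
      invFun := fun p => ⟨p.1, p.2⟩
      left_inv := fun _ => rfl
      right_inv := fun _ => rfl }
  have hfin : Finite (FG m r) := Finite.of_equiv _ e.symm
  have hcard : Nat.card (FG m r) = m * r := by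
    rw [Nat.card_congr e, Nat.card_prod, Nat.card_zmod, Nat.card_zmod]
  have hc : ∀ g h : FG m r, Commute g h ↔ (x ^ h.i.val - 1) * g.a = (x ^ g.i.val - 1) * h.a := by
    intro g h
    constructor
    · intro c
      have c' : g * h = h * g := c
      rw [hmul, hmul] at c'
      injection c' with c1 c2
      linear_combination -c1
    · intro c
      change g * h = h * g
      rw [hmul, hmul]
      apply FG.ext'
      · change g.a + x ^ g.i.val * h.a = h.a + x ^ h.i.val * g.a
        linear_combination -c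
      · exact add_comm _ _
  have hcount : Nat.card {p : FG m r × FG m r // Commute p.1 p.2} = m * (m + (r ^ 2 - 1)) := by
    have E : {p : FG m r × FG m r // Commute p.1 p.2} ≃
        Σ q : ZMod r × ZMod r, {c : ZMod m × ZMod m //
          (x ^ q.2.val - 1) * c.1 = (x ^ q.1.val - 1) * c.2} :=
      { toFun := fun p => ⟨(p.1.1.i, p.1.2.i), ⟨(p.1.1.a, p.1.2.a), (hc _ _).1 p.2⟩⟩
        invFun := fun s => ⟨(⟨s.2.1.1, s.1.1⟩, ⟨s.2.1.2, s.1.2⟩), (hc _ _).2 s.2.2⟩
        left_inv := fun _ => rfl
        right_inv := fun _ => rfl }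
    rw [Nat.card_congr E, Nat.card_sigma]
    have h1 : ∀ q : ZMod r × ZMod r, Nat.card {c : ZMod m × ZMod m //
          (x ^ q.2.val - 1) * c.1 = (x ^ q.1.val - 1) * c.2} =
          m + (if q = 0 then m * (m - 1) else 0) := by
      rintro ⟨i, j⟩
      by_cases hi : i = 0
      · by_cases hj : j = 0
        · subst hi; subst hj
          rw [if_pos (show ((0 : ZMod r), (0 : ZMod r)) = 0 from rfl)]
          have E2 : {c : ZMod m × ZMod m //
            (x ^ ((0 : ZMod r), (0 : ZMod r)).2.val - 1) * c.1 =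
              (x ^ ((0 : ZMod r), (0 : ZMod r)).1.val - 1) * c.2} ≃ ZMod m × ZMod m :=
            Equiv.subtypeUnivEquiv fun c => by simp
          rw [Nat.card_congr E2, Nat.card_prod, Nat.card_zmod]
          obtain ⟨n, rfl⟩ : ∃ n, m = n + 1 := ⟨m - 1, by omega⟩
          rw [Nat.add_sub_cancel]; ring
        · subst hi
          rw [if_neg (fun h => hj (congrArg Prod.snd h)), add_zero]
          have hju := hu j hj
          have E2 : {c : ZMod m × ZMod m //
            (x ^ ((0 : ZMod r), j).2.val - 1) * c.1 =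
              (x ^ ((0 : ZMod r), j).1.val - 1) * c.2} ≃ ZMod m :=
            { toFun := fun c => c.1.2
              invFun := fun a => ⟨(0, a), by simp⟩
              left_inv := fun c => by
                have h2 := c.2
                simp only [ZMod.val_zero, pow_zero, sub_self, zero_mul] at h2
                have h3 : c.1.1 = 0 := (hju.mul_right_eq_zero).1 h2
                exact Subtype.ext (Prod.ext h3.symm rfl)
              right_inv := fun _ => rfl }
          rw [Nat.card_congr E2, Nat.card_zmod]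
      · rw [if_neg (fun h => hi (congrArg Prod.fst h)), add_zero]
        obtain ⟨w, hw⟩ := hu i hi
        have E2 : {c : ZMod m × ZMod m //
            (x ^ (i, j).2.val - 1) * c.1 = (x ^ (i, j).1.val - 1) * c.2} ≃ ZMod m :=
          { toFun := fun c => c.1.1
            invFun := fun a => ⟨(a, ↑w⁻¹ * ((x ^ j.val - 1) * a)), by
              change (x ^ j.val - 1) * a = (x ^ i.val - 1) * (↑w⁻¹ * ((x ^ j.val - 1) * a))
              rw [← hw, Units.mul_inv_cancel_left]⟩
            left_inv := fun c => by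
              apply Subtype.ext
              refine Prod.ext rfl ?_
              change ↑w⁻¹ * ((x ^ j.val - 1) * c.1.1) = c.1.2
              have h2 : (x ^ j.val - 1) * c.1.1 = (x ^ i.val - 1) * c.1.2 := c.2
              rw [h2]
              have h3 : ∀ z : ZMod m, ↑w⁻¹ * ((x ^ i.val - 1) * z) = z := fun z => by
                rw [← hw, Units.inv_mul_cancel_left]
              exact h3 _
            right_inv := fun _ => rfl }
        rw [Nat.card_congr E2, Nat.card_zmod]
    rw [Finset.sum_congr rfl fun q _ => h1 q, Finset.sum_add_distrib, Finset.sum_const,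
      Finset.sum_ite_eq' Finset.univ (0 : ZMod r × ZMod r) (fun _ => m * (m - 1)),
      if_pos (Finset.mem_univ _), Finset.card_univ, Fintype.card_prod, ZMod.card, smul_eq_mul]
    have h2 : 1 ≤ r ^ 2 := Nat.one_le_pow _ _ hrpos
    obtain ⟨n, hn⟩ : ∃ n, m = n + 1 := ⟨m - 1, by omega⟩
    obtain ⟨s, hs⟩ : ∃ s, r ^ 2 = s + 1 := ⟨r ^ 2 - 1, by omega⟩
    rw [← pow_two, hs, hn, Nat.add_sub_cancel, Nat.add_sub_cancel]; ring
  refine ⟨FG m r, inferInstance, hfin, ?_, ?_, ?_⟩
  · rw [hcard]; exact hm.mul hrodd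
  · refine ⟨⟨1, 0⟩, ⟨0, 1⟩, fun h => ?_⟩
    rw [hmul, hmul] at h
    injection h with h1 h2
    have h3 : (1 : ZMod r).val = 1 := ZMod.val_one r
    have h5 := hu 1 one_ne_zero
    rw [h3, pow_one] at h5
    rw [h3, pow_one, mul_zero, add_zero, zero_add, mul_one] at h1
    rw [← h1, sub_self] at h5
    have h4 : Nontrivial (ZMod m) := ZMod.nontrivial_iff.2 (by omega)
    exact not_isUnit_zero h5
  · have K := card_comm_eq_card_conjClasses_mul_card (FG m r)
    rw [hcount, hcard, ← ht] at K
    apply Nat.eq_of_mul_eq_mul_right (Nat.mul_pos (by omega : 0 < m) hrpos)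
    rw [← K]; ring

/-- `C_p : C_r` with `p = r (t - r) + 1` prime has exactly `t` classes -/
theorem Good_of_prime {r t : ℕ} (hr : Odd r) (hr3 : 3 ≤ r) (hrt : r < t)
    (hp : (r * (t - r) + 1).Prime) : Good t := by
  obtain ⟨p, hpe⟩ : ∃ p, p = r * (t - r) + 1 := ⟨_, rfl⟩
  rw [← hpe] at hp
  have h0 : 0 < r * (t - r) := Nat.mul_pos (by omega) (by omega)
  have h3 : 3 ≤ r * (t - r) := le_trans hr3 (Nat.le_mul_of_pos_right _ (by omega))
  have hp2 : p ≠ 2 := by omega
  have hpodd : Odd p := hp.odd_of_ne_two hp2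
  have : Fact p.Prime := ⟨hp⟩
  have : NeZero r := ⟨by omega⟩
  obtain ⟨g, hg⟩ := IsCyclic.exists_generator (α := (ZMod p)ˣ)
  have hgo : orderOf g = p - 1 := by
    rw [orderOf_eq_card_of_forall_mem_zpowers hg, Nat.card_eq_fintype_card, ZMod.card_units]
  have hgo2 : orderOf g = r * (t - r) := by omega
  have hord : orderOf (g ^ (t - r)) = r := by
    rw [orderOf_pow_of_dvd (by omega) (by rw [hgo2]; exact Dvd.intro_left _ rfl), hgo2]
    exact Nat.mul_div_cancel _ (by omega)
  set u := g ^ (t - r) with hu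
  refine Good_frobU p r hr hr3 hpodd (by omega) (u : ZMod p) ?_ ?_ t ?_
  · have : u ^ r = 1 := by
      have := pow_orderOf_eq_one u
      rwa [hord] at this
    rw [← Units.val_pow_eq_pow_val, this, Units.val_one]
  · intro i hi
    rw [isUnit_iff_ne_zero]
    intro h
    have h1 : (u : ZMod p) ^ i.val = 1 := sub_eq_zero.1 h
    have h2 : u ^ i.val = 1 := by
      apply Units.ext
      rw [Units.val_pow_eq_pow_val, h1, Units.val_one]
    have h4 := orderOf_dvd_of_pow_eq_one h2
    rw [hord] at h4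
    have h5 : i.val < r := ZMod.val_lt i
    have h6 : i.val = 0 := Nat.eq_zero_of_dvd_of_lt h4 h5
    exact hi ((ZMod.val_eq_zero i).1 h6)
  · obtain ⟨s, rfl⟩ : ∃ s, t = r + s := ⟨t - r, by omega⟩
    have h3 : 1 ≤ r ^ 2 := Nat.one_le_pow _ _ (by omega)
    rw [hpe, Nat.add_sub_cancel_left]
    obtain ⟨q, hq⟩ : ∃ q, r ^ 2 = q + 1 := ⟨r ^ 2 - 1, by omega⟩
    rw [hq, Nat.add_sub_cancel]
    calc r * (r + s) = r ^ 2 + r * s := by ring
      _ = r * s + 1 + q := by rw [hq]; ring

end Pool.Agent.Lib.MP_cfac74_al.Dec
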