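import Pool.Agent.Lib.MP_cfac74_al.Small.Data

/-! # MP_cfac74_al, small range: kernel run 2 -/

set_option autoImplicit false
set_option maxRecDepth 100000

namespace Pool.Agent.Lib.MP_cfac74_al.Small

open Pool.Agent.Lib.MP_cfac74_al.Dec

theorem run2 : tree (leaf P Q) (nat_lit 30) (nat_lit 15) (nat_lit 1968091) = true := by
  decide +kernel

theorem good2 (t : ℕ) (ht : t.Prime) (h1 : 1968091 ≤ t) (h2 : t < 2951131) : Good t :=
  range_good (a := 1968091) (d := 15) P_spec Q_spec (by norm_num) (by norm_num) (by norm_num)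
    (by norm_num) run2 t ht h1 (by norm_num; exact h2)

end Pool.Agent.Lib.MP_cfac74_al.Small
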