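import Pool.Agent.Lib.MP_cfac74_al.Small.R0
import Pool.Agent.Lib.MP_cfac74_al.Small.R1
import Pool.Agent.Lib.MP_cfac74_al.Small.R2
import Pool.Agent.Lib.MP_cfac74_al.Small.R3

/-! # MP_cfac74_al, small range: all odd `t` with `3 < t < 3934171` -/

set_option autoImplicit false

namespace Pool.Agent.Lib.MP_cfac74_al.Small

open Pool.Agent.Lib.MP_cfac74_al.Dec

theorem small_prime (t : ℕ) (ht : t.Prime) (h5 : 5 ≤ t) (hX : t < 3934171) : Good t := by
  rcases Nat.lt_or_ge t 211 with h | h
  · exact tiny t ht h5 h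
  rcases Nat.lt_or_ge t 2011 with h0 | h0
  · exact mid t ht h (by omega)
  rcases Nat.lt_or_ge t 985051 with h1 | h1
  · exact good0 t ht h0 h1
  rcases Nat.lt_or_ge t 1968091 with h2 | h2
  · exact good1 t ht h1 h2
  rcases Nat.lt_or_ge t 2951131 with h3 | h3
  · exact good2 t ht h2 h3
  · exact good3 t ht h3 hX

/-- every odd `t` with `3 < t < 3934171` is the class number of a non-abelian group of odd order -/
theorem small (t : ℕ) (ht : Odd t) (h3 : 3 < t) (hX : t < 3934171) : Good t :=
  Good_of_primes 3934171 (fun p hp h5 h => small_prime p hp h5 h) Good_nine t ht h3 hX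

end Pool.Agent.Lib.MP_cfac74_al.Small
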